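import Pool.Agent.Helper49.LC.St

/-!
Project LC (MP_58b586_gt), module LIT: localized isotopy extension.  The auxiliary lemmas and the proof follow
`Pool/Agent/Helper6/LE/M_IET.lean` (helper6).
-/

set_option autoImplicit false

namespace Pool.Agent.Helper41.LC

open Pool.Agent.Helper14.LK Pool.Agent.Helper49.LC
open scoped ContDiff Topology
open MeasureTheory Set Filter

private theorem IET_theta (t : ℝ) : Real.smoothTransition t ∈ Icc (0 : ℝ) 1 :=
  ⟨Real.smoothTransition.nonneg t, Real.smoothTransition.le_one t⟩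

private theorem IET_deriv {E : Type} [NormedAddCommGroup E] [NormedSpace ℝ E] {F : Type}
    (ι : ℝ → F → E) (x : F) (t : ℝ) (ht : t ∉ Icc (0 : ℝ) 1) :
    deriv (fun s => ι (Real.smoothTransition s) x) t = 0 := by
  rw [mem_Icc, not_and_or, not_le, not_le] at ht
  rcases ht with h | h
  · have h1 : (fun s => ι (Real.smoothTransition s) x) =ᶠ[𝓝 t] fun _ => ι 0 x := by
      filter_upwards [Iio_mem_nhds h] with s hs
      rw [Real.smoothTransition.zero_of_nonpos (le_of_lt hs)]
    rw [h1.deriv_eq, deriv_const]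
  · have h1 : (fun s => ι (Real.smoothTransition s) x) =ᶠ[𝓝 t] fun _ => ι 1 x := by
      filter_upwards [Ioi_mem_nhds h] with s hs
      rw [Real.smoothTransition.one_of_one_le (le_of_lt hs)]
    rw [h1.deriv_eq, deriv_const]

private theorem IET_chain {E F : Type} [NormedAddCommGroup E] [NormedSpace ℝ E]
    [NormedAddCommGroup F] [NormedSpace ℝ F] {j : ℝ → E → F} (hj : ContDiff ℝ ∞ (Function.uncurry j))
    {g : ℝ → E} {g' : E} {t : ℝ} (hg : HasDerivAt g g' t) :
    HasDerivAt (fun s => j s (g s)) (deriv (fun s => j s (g t)) t + fderiv ℝ (j t) (g t) g') t := by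
  have hd : DifferentiableAt ℝ (Function.uncurry j) (t, g t) :=
    (hj.differentiable (by simp)).differentiableAt
  have h1 : HasDerivAt (fun s : ℝ => ((s, g s) : ℝ × E)) (1, g') t := (hasDerivAt_id t).prodMk hg
  have h2 : HasDerivAt (fun s => j s (g s)) (fderiv ℝ (Function.uncurry j) (t, g t) (1, g')) t := by
    have h0 : HasFDerivAt (Function.uncurry j) (fderiv ℝ (Function.uncurry j) (t, g t))
        ((fun s : ℝ => ((s, g s) : ℝ × E)) t) := hd.hasFDerivAt
    exact HasFDerivAt.comp_hasDerivAt t h0 h1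
  have h3 : HasDerivAt (fun s : ℝ => ((s, g t) : ℝ × E)) (1, 0) t :=
    (hasDerivAt_id t).prodMk (hasDerivAt_const t (g t))
  have h4 : HasDerivAt (fun s => j s (g t)) (fderiv ℝ (Function.uncurry j) (t, g t) (1, 0)) t := by
    have h0 : HasFDerivAt (Function.uncurry j) (fderiv ℝ (Function.uncurry j) (t, g t))
        ((fun s : ℝ => ((s, g t) : ℝ × E)) t) := hd.hasFDerivAt
    exact HasFDerivAt.comp_hasDerivAt t h0 h3
  have h5 : HasFDerivAt (fun y : E => ((t, y) : ℝ × E)) (ContinuousLinearMap.inr ℝ ℝ E) (g t) := by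
    exact (hasFDerivAt_prodMk_right t (g t))
  have h6 : HasFDerivAt (j t) ((fderiv ℝ (Function.uncurry j) (t, g t)).comp
      (ContinuousLinearMap.inr ℝ ℝ E)) (g t) := hd.hasFDerivAt.comp (g t) h5
  rw [h4.deriv, h6.fderiv]
  have h7 : fderiv ℝ (Function.uncurry j) (t, g t) (1, g') =
      fderiv ℝ (Function.uncurry j) (t, g t) (1, 0) +
        ((fderiv ℝ (Function.uncurry j) (t, g t)).comp (ContinuousLinearMap.inr ℝ ℝ E)) g' := by
    rw [ContinuousLinearMap.comp_apply, ContinuousLinearMap.inr_apply, ← map_add]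
    simp
  rw [← h7]
  exact h2

private theorem IET_lip {E F : Type} [NormedAddCommGroup E] [NormedSpace ℝ E]
    [NormedAddCommGroup F] [NormedSpace ℝ F] {V : ℝ → E → F} {K : NNReal}
    (h : LipschitzWith K (Function.uncurry V)) (t : ℝ) : LipschitzWith K (V t) := by
  intro x y
  have h1 := h (t, x) (t, y)
  simpa [Function.uncurry, Prod.edist_eq] using h1

/-- LIT (localized isotopy extension). -/
theorem hLIT (hLIE : StLIE) (hHFL : StHFL) (hFLO : StFLO) : StLIT := by
  intro n hn ι R r hRr hι hkn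
  have hθ : ContDiff ℝ ∞ Real.smoothTransition := Real.smoothTransition.contDiff
  have hR0 : 0 < R := (hkn 0 ⟨le_rfl, zero_le_one⟩).pos
  obtain ⟨j, hjd⟩ : ∃ j : ℝ → EE n → WW n, j = fun t => ι (Real.smoothTransition t) := ⟨_, rfl⟩
  have hj : ContDiff ℝ ∞ (Function.uncurry j) := by
    have h1 : Function.uncurry j = Function.uncurry ι ∘
        (fun p : ℝ × EE n => (Real.smoothTransition p.1, p.2)) := by
      rw [hjd]
      rfl
    rw [h1]
    exact hι.comp ((hθ.comp contDiff_fst).prodMk contDiff_snd)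
  have hj0 : j 0 = ι 0 := by
    rw [hjd]
    simp only [Real.smoothTransition.zero]
  have hj1 : j 1 = ι 1 := by
    rw [hjd]
    simp only [Real.smoothTransition.one]
  have hjk : ∀ t, Kn (j t) 0 R := fun t => by
    rw [hjd]
    exact hkn _ (IET_theta t)
  obtain ⟨H, X, u, hH, hX, hXc, hu, huc, hom, hXr, hXu⟩ := hLIE n hn j R r hR0 hRr hj
    (fun t => (hjk t).iso) (fun t => (hjk t).imm) (fun t => (hjk t).inj)
    (fun t x hx => (hjk t).far x (by rw [sub_zero]; exact hx))
    (fun t x hx => by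
      have h1 := (hjk t).near x (by rw [sub_zero]; exact hx)
      have h2 : ((0 : EE n), (0 : EE n)) = (0 : WW n) := rfl
      rw [h2, sub_zero] at h1
      exact h1)
    (fun t x ht => by rw [hjd]; exact IET_deriv ι x t ht)
  obtain ⟨K, hK⟩ := ContDiff.lipschitzWith_of_hasCompactSupport hXc hX (by simp)
  obtain ⟨K', hK'⟩ := ContDiff.lipschitzWith_of_hasCompactSupport huc hu (by simp)
  obtain ⟨φ, φi, hφ, hφi, hφ1, hφ2, hφs, hφ0, hφr, hφd⟩ := hHFL n H X r hH hX hXc hom hXr
  obtain ⟨g, gi, hg, hgi, hg0, hgd, hg1, hg2⟩ := hFLO (EE n) u hu ⟨K', hK'⟩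
  have key : ∀ x t, φ t (j 0 x) = j t (g t x) := by
    intro x t
    have h1 : (fun t => φ t (j 0 x)) = fun t => j t (g t x) := by
      refine ODE_solution_unique_univ (v := X) (s := fun _ => univ) (K := K) (t₀ := 0) ?_ ?_ ?_ ?_
      · intro t
        exact (IET_lip hK t).lipschitzOnWith
      · intro t
        exact ⟨hφd t _, mem_univ _⟩
      · intro t
        refine ⟨?_, mem_univ _⟩
        have h2 := IET_chain hj (hgd t x)
        rw [← hXu t (g t x)] at h2
        exact h2
      · simp only [hφ0, hg0]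
    exact congrFun h1 t
  refine ⟨φ 1, φi 1, ⟨φ, φi, hφ, hφi, hφ1, hφ2, hφs, hφ0, ?_, rfl, rfl⟩, ?_⟩
  · intro t w hw
    rw [sub_zero] at hw
    exact hφr t w hw
  · rw [← hj0, ← hj1]
    ext w
    constructor
    · rintro ⟨_, ⟨x, rfl⟩, rfl⟩
      exact ⟨g 1 x, (key x 1).symm⟩
    · rintro ⟨x, rfl⟩
      refine ⟨j 0 (gi 1 x), ⟨gi 1 x, rfl⟩, ?_⟩
      rw [key, hg1]

end Pool.Agent.Helper41.LC
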