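import Pool.Agent.Helper49.LC.St

/-!
Project LC (MP_58b586_gt), module WE2: injectivity near the plane
-/

set_option autoImplicit false

namespace Pool.Agent.Helper41.LC

open Pool.Agent.Helper14.LK Pool.Agent.Helper49.LC
open scoped ContDiff Topology
open Set Filter

private theorem loc_inj {E : Type} [NormedAddCommGroup E] [NormedSpace ℝ E] [FiniteDimensional ℝ E]
    (W : E → E) (hW : ContDiff ℝ ∞ W) (x : E) (h : ∀ a, fderiv ℝ W x a = 0 → a = 0) :
    ∃ u ∈ 𝓝 x, InjOn W u := by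
  have : CompleteSpace E := FiniteDimensional.complete ℝ E
  have hinj : Function.Injective (fderiv ℝ W x : E →ₗ[ℝ] E) := by
    rw [← LinearMap.ker_eq_bot, LinearMap.ker_eq_bot']
    exact h
  let e : E ≃L[ℝ] E := (LinearEquiv.ofInjectiveEndo (fderiv ℝ W x : E →ₗ[ℝ] E)
    hinj).toContinuousLinearEquiv
  have he : (e : E →L[ℝ] E) = fderiv ℝ W x := by
    ext a
    rfl
  have hs : HasStrictFDerivAt W (e : E →L[ℝ] E) x := by
    rw [he]
    exact (hW.contDiffAt).hasStrictFDerivAt (by simp)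
  refine ⟨(hs.toOpenPartialHomeomorph W).source,
    (hs.toOpenPartialHomeomorph W).open_source.mem_nhds hs.mem_toOpenPartialHomeomorph_source, ?_⟩
  have h1 := (hs.toOpenPartialHomeomorph W).injOn
  rwa [hs.toOpenPartialHomeomorph_coe] at h1

/-- WE2 (injectivity near the plane). -/
theorem hWE2 : StWE2 := by
  intro n ι W R δ hδ hW hι hWι hWR hsy
  have hWc : Continuous W := hW.continuous
  obtain ⟨B, hB⟩ := ((isCompact_closedBall (0 : EE n) |R|).prod
    (isCompact_closedBall (0 : EE n) δ)).exists_bound_of_continuousOn hWc.continuousOn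
  obtain ⟨R₁, hR₁⟩ : ∃ R₁, R₁ = |R| + |B| + 1 := ⟨_, rfl⟩
  have hRa : R ≤ |R| := le_abs_self R
  have hRa0 : 0 ≤ |R| := abs_nonneg R
  have hBa : B ≤ |B| := le_abs_self B
  have hBa0 : 0 ≤ |B| := abs_nonneg B
  have hKc : IsCompact (Metric.closedBall (0 : EE n) R₁ ×ˢ ({0} : Set (EE n))) :=
    (isCompact_closedBall _ _).prod isCompact_singleton
  have hKi : InjOn W (Metric.closedBall (0 : EE n) R₁ ×ˢ ({0} : Set (EE n))) := by
    rintro ⟨x, y⟩ ⟨_, hy⟩ ⟨x', y'⟩ ⟨_, hy'⟩ h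
    rw [mem_singleton_iff] at hy hy'
    simp only at hy hy'
    subst hy hy'
    rw [hWι, hWι] at h
    rw [hι h]
  obtain ⟨t, ht, hti⟩ := hKi.exists_mem_nhdsSet hKc (fun x _ => hWc.continuousAt) (by
    rintro ⟨x, y⟩ ⟨_, hy⟩
    rw [mem_singleton_iff] at hy
    simp only at hy
    subst hy
    apply loc_inj W hW
    intro a ha
    apply eq_of_om_eq
    intro c
    rw [← hsy (x, 0) (by simpa using hδ) a c, ha]
    simp)
  obtain ⟨O, hO, hKO, hOt⟩ := mem_nhdsSet_iff_exists.1 ht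
  obtain ⟨δ₁, hδ₁, hth⟩ := hKc.exists_thickening_subset_open hO hKO
  refine ⟨min δ₁ δ, lt_min hδ₁ hδ, min_le_right _ _, ?_⟩
  have hin : ∀ w : WW n, ‖w.2‖ < min δ₁ δ → ‖w.1‖ ≤ R₁ → w ∈ t := by
    intro w hw hw1
    apply hOt
    apply hth
    rw [Metric.mem_thickening_iff]
    refine ⟨(w.1, 0), ⟨by simpa using hw1, rfl⟩, ?_⟩
    rw [Prod.dist_eq]
    simp only [dist_self, dist_zero_right]
    exact max_lt hδ₁ (lt_of_lt_of_le hw (min_le_left _ _))
  have haux : ∀ w w' : WW n, ‖w.2‖ < min δ₁ δ → R₁ < ‖w'.1‖ → W w = W w' → w = w' := by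
    intro w w' hw hw1 h
    rw [hWR w' (by linarith)] at h
    rcases le_or_gt R ‖w.1‖ with h1 | h1
    · rw [hWR w h1] at h
      exact h
    · exfalso
      have h2 : ‖W w‖ ≤ B := by
        apply hB
        refine ⟨?_, ?_⟩
        · rw [mem_closedBall_zero_iff]
          linarith
        · rw [mem_closedBall_zero_iff]
          exact (lt_of_lt_of_le hw (min_le_right _ _)).le
      have h3 : ‖w'.1‖ ≤ ‖w'‖ := norm_fst_le w'
      rw [h] at h2
      linarith
  intro w hw w' hw' h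
  change ‖w.2‖ < min δ₁ δ at hw
  change ‖w'.2‖ < min δ₁ δ at hw'
  rcases le_or_gt ‖w.1‖ R₁ with h1 | h1
  · rcases le_or_gt ‖w'.1‖ R₁ with h2 | h2
    · exact hti (hin w hw h1) (hin w' hw' h2) h
    · exact haux w w' hw h2 h
  · exact (haux w' w hw' h1 h.symm).symm

end Pool.Agent.Helper41.LC
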